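import Pool.Agent.Helper23_Refl.KOrb
import Pool.Agent.Helper23_Refl.Cert.Lst
import Pool.Agent.Helper23_Refl.Cert.Data

/-!
# Certificates, lattices, part B4
-/

namespace Pool.Agent.Refl.Cert

set_option linter.defProp false

def e_i0_8 : K.enI 0 8 K.nilB i0_8 = true := by decide +kernel
def e_i0_9 : K.enI 0 9 K.nilB i0_9 = true := by decide +kernel
def e_i0_10 : K.enI 0 10 K.nilB i0_10 = true := by decide +kernel
def e_i0_11 : K.enI 0 11 K.nilB i0_11 = true := by decide +kernel
def e_i0_12 : K.enI 0 12 K.nilB i0_12 = true := by decide +kernel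
def e_i0_13 : K.enI 0 13 K.nilB i0_13 = true := by decide +kernel
def e_i0_14 : K.enI 0 14 K.nilB i0_14 = true := by decide +kernel
def e_i0_15 : K.enI 0 15 K.nilB i0_15 = true := by decide +kernel
def e_i0_16 : K.enI 0 16 K.nilB i0_16 = true := by decide +kernel
def e_i1_5 : K.enI 1 5 K.nilB i1_5 = true := by decide +kernel
def e_i1_6 : K.enI 1 6 K.nilB i1_6 = true := by decide +kernel
def e_i1_7 : K.enI 1 7 K.nilB i1_7 = true := by decide +kernel
def e_i1_8 : K.enI 1 8 K.nilB i1_8 = true := by decide +kernel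
def e_i1_9 : K.enI 1 9 K.nilB i1_9 = true := by decide +kernel
def e_i1_10 : K.enI 1 10 K.nilB i1_10 = true := by decide +kernel
def e_i1_11 : K.enI 1 11 K.nilB i1_11 = true := by decide +kernel
def e_i1_12 : K.enI 1 12 K.nilB i1_12 = true := by decide +kernel
def e_i1_13 : K.enI 1 13 K.nilB i1_13 = true := by decide +kernel
def e_i1_14 : K.enI 1 14 K.nilB i1_14 = true := by decide +kernel
def e_i1_15 : K.enI 1 15 K.nilB i1_15 = true := by decide +kernel
def e_i1_16 : K.enI 1 16 K.nilB i1_16 = true := by decide +kernel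
def e_i1_17 : K.enI 1 17 K.nilB i1_17 = true := by decide +kernel
def e_i1_18 : K.enI 1 18 K.nilB i1_18 = true := by decide +kernel
def e_i1_19 : K.enI 1 19 K.nilB i1_19 = true := by decide +kernel
def e_i1_20 : K.enI 1 20 K.nilB i1_20 = true := by decide +kernel
def e_i1_21 : K.enI 1 21 K.nilB i1_21 = true := by decide +kernel
def e_i1_22 : K.enI 1 22 K.nilB i1_22 = true := by decide +kernel
def e_i1_23 : K.enI 1 23 K.nilB i1_23 = true := by decide +kernel
def e_i1_24 : K.enI 1 24 K.nilB i1_24 = true := by decide +kernel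
def e_i1_25 : K.enI 1 25 K.nilB i1_25 = true := by decide +kernel
def e_i2_5 : K.enI 2 5 K.nilB i2_5 = true := by decide +kernel
def e_i2_6 : K.enI 2 6 K.nilB i2_6 = true := by decide +kernel
def e_i2_7 : K.enI 2 7 K.nilB i2_7 = true := by decide +kernel
def e_i2_8 : K.enI 2 8 K.nilB i2_8 = true := by decide +kernel
def e_i2_9 : K.enI 2 9 K.nilB i2_9 = true := by decide +kernel
def e_i2_10 : K.enI 2 10 K.nilB i2_10 = true := by decide +kernel
def e_i2_11 : K.enI 2 11 K.nilB i2_11 = true := by decide +kernel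
def e_i2_12 : K.enI 2 12 K.nilB i2_12 = true := by decide +kernel
def e_i2_13 : K.enI 2 13 K.nilB i2_13 = true := by decide +kernel
def e_i2_14 : K.enI 2 14 K.nilB i2_14 = true := by decide +kernel
def e_i2_15 : K.enI 2 15 K.nilB i2_15 = true := by decide +kernel
def e_i2_16 : K.enI 2 16 K.nilB i2_16 = true := by decide +kernel
def e_i2_17 : K.enI 2 17 K.nilB i2_17 = true := by decide +kernel
def e_i2_18 : K.enI 2 18 K.nilB i2_18 = true := by decide +kernel
def e_i2_19 : K.enI 2 19 K.nilB i2_19 = true := by decide +kernel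
def e_i2_20 : K.enI 2 20 K.nilB i2_20 = true := by decide +kernel
def e_i2_21 : K.enI 2 21 K.nilB i2_21 = true := by decide +kernel
def e_i2_22 : K.enI 2 22 K.nilB i2_22 = true := by decide +kernel
def e_i2_23 : K.enI 2 23 K.nilB i2_23 = true := by decide +kernel
def e_i2_24 : K.enI 2 24 K.nilB i2_24 = true := by decide +kernel
def e_i2_25 : K.enI 2 25 K.nilB i2_25 = true := by decide +kernel
def e_i2_26 : K.enI 2 26 K.nilB i2_26 = true := by decide +kernel
def e_i2_27 : K.enI 2 27 K.nilB i2_27 = true := by decide +kernel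
def e_i2_28 : K.enI 2 28 K.nilB i2_28 = true := by decide +kernel
def e_i2_29 : K.enI 2 29 K.nilB i2_29 = true := by decide +kernel
def e_i3_5 : K.enI 3 5 K.nilB i3_5 = true := by decide +kernel
def e_i3_6 : K.enI 3 6 K.nilB i3_6 = true := by decide +kernel
def e_i3_7 : K.enI 3 7 K.nilB i3_7 = true := by decide +kernel
def e_i3_8 : K.enI 3 8 K.nilB i3_8 = true := by decide +kernel
def e_i3_9 : K.enI 3 9 K.nilB i3_9 = true := by decide +kernel
def e_i3_10 : K.enI 3 10 K.nilB i3_10 = true := by decide +kernel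
def e_i3_11 : K.enI 3 11 K.nilB i3_11 = true := by decide +kernel
def e_i3_12 : K.enI 3 12 K.nilB i3_12 = true := by decide +kernel
def e_i3_13 : K.enI 3 13 K.nilB i3_13 = true := by decide +kernel
def e_i3_14 : K.enI 3 14 K.nilB i3_14 = true := by decide +kernel
def e_i3_15 : K.enI 3 15 K.nilB i3_15 = true := by decide +kernel
def e_i3_16 : K.enI 3 16 K.nilB i3_16 = true := by decide +kernel
def e_i3_17 : K.enI 3 17 K.nilB i3_17 = true := by decide +kernel
def e_i3_18 : K.enI 3 18 K.nilB i3_18 = true := by decide +kernel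
def e_i3_19 : K.enI 3 19 K.nilB i3_19 = true := by decide +kernel
def e_i3_20 : K.enI 3 20 K.nilB i3_20 = true := by decide +kernel
def e_i3_21 : K.enI 3 21 K.nilB i3_21 = true := by decide +kernel
def e_i3_22 : K.enI 3 22 K.nilB i3_22 = true := by decide +kernel
def e_i3_23 : K.enI 3 23 K.nilB i3_23 = true := by decide +kernel
def e_i3_24 : K.enI 3 24 K.nilB i3_24 = true := by decide +kernel
def e_i3_25 : K.enI 3 25 K.nilB i3_25 = true := by decide +kernel
def e_i3_26 : K.enI 3 26 K.nilB i3_26 = true := by decide +kernel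
def e_i3_27 : K.enI 3 27 K.nilB i3_27 = true := by decide +kernel
def e_i3_28 : K.enI 3 28 K.nilB i3_28 = true := by decide +kernel
def e_i3_29 : K.enI 3 29 K.nilB i3_29 = true := by decide +kernel
def e_i3_30 : K.enI 3 30 K.nilB i3_30 = true := by decide +kernel
def e_i3_31 : K.enI 3 31 K.nilB i3_31 = true := by decide +kernel
def e_i3_32 : K.enI 3 32 K.nilB i3_32 = true := by decide +kernel
def e_j0_1 : K.enII 0 1 K.nilB j0_1 = true := by decide +kernel
def e_j0_2 : K.enII 0 2 K.nilB j0_2 = true := by decide +kernel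
def e_j0_3 : K.enII 0 3 K.nilB j0_3 = true := by decide +kernel
def e_j1_0 : K.enII 1 0 K.nilB j1_0 = true := by decide +kernel
def e_j1_1 : K.enII 1 1 K.nilB j1_1 = true := by decide +kernel
def e_j1_2 : K.enII 1 2 K.nilB j1_2 = true := by decide +kernel
def e_j1_3 : K.enII 1 3 K.nilB j1_3 = true := by decide +kernel
def e_j2_0 : K.enII 2 0 K.nilB j2_0 = true := by decide +kernel
def e_j2_1 : K.enII 2 1 K.nilB j2_1 = true := by decide +kernel
def e_j2_2 : K.enII 2 2 K.nilB j2_2 = true := by decide +kernel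
def e_j2_3 : K.enII 2 3 K.nilB j2_3 = true := by decide +kernel
def e_j3_0 : K.enII 3 0 K.nilB j3_0 = true := by decide +kernel
def e_j3_1 : K.enII 3 1 K.nilB j3_1 = true := by decide +kernel
def e_j3_2 : K.enII 3 2 K.nilB j3_2 = true := by decide +kernel
def e_j3_3 : K.enII 3 3 K.nilB j3_3 = true := by decide +kernel

end Pool.Agent.Refl.Cert
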